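import Pool.Agent.K9h1.CW.Mat

/-!
# Constant weight binary codes: a matrix bound below the bounds of the Johnson scheme

`A n d w` is the largest size of a binary code of length `n` and minimum distance at least `d` all
of whose words have weight `w`, and `R ω δ = limsup (1/n) log₂ A(n, ⌈δn⌉, ⌊ωn⌋)`.

For a partition of the coordinates `1, ..., m` into two classes, `m` arbitrary, and a positive
semidefinite `m × m` matrix `T` with `tr T² = 1`, mass `ω` of `T²` on the second class, and block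
diagonal entries of square sum at least `1 - δ`, we prove
`R ω δ ≤ H(ω) - S(D(T²)) + S(T²)`, where `D` is the block diagonal part and `S` the von Neumann
entropy. The infimum `E ω δ` of these bounds is strictly smaller than the linear programming bound
of McEliece, Rodemich, Rumsey and Welch for the Johnson scheme, and than its versions for all finite
products of Johnson schemes, at all `0 < ω < 1` and `0 < δ < 2 ω (1 - ω)`.
-/

namespace Pool.Agent.Results.MP_0430e4_lc.ConstantWeightBound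

/-- The binary entropy function, in bits. -/
noncomputable def H (x : ℝ) : ℝ := Real.binEntropy x / Real.log 2

/-- The largest size of a binary code of length `n` and minimum distance at least `d`. -/
noncomputable def A₀ (n d : ℕ) : ℕ :=
  sSup {k | ∃ C : Finset (Fin n → Fin 2),
    (∀ x ∈ C, ∀ y ∈ C, x ≠ y → d ≤ hammingDist x y) ∧ C.card = k}

/-- The largest size of a binary code of length `n` and minimum distance at least `d` all of whose
words have weight `w`. -/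
noncomputable def A (n d w : ℕ) : ℕ :=
  sSup {k | ∃ C : Finset (Fin n → Fin 2), (∀ x ∈ C, hammingNorm x = w) ∧
    (∀ x ∈ C, ∀ y ∈ C, x ≠ y → d ≤ hammingDist x y) ∧ C.card = k}

/-- `R(δ)`, the asymptotic rate of binary codes. -/
noncomputable def R₀ (δ : ℝ) : ℝ :=
  Filter.limsup (fun n : ℕ => 1 / (n : ℝ) * Real.logb 2 (A₀ n ⌈δ * n⌉₊)) Filter.atTop

/-- `R(ω, δ)`, the asymptotic rate of binary codes of constant weight `⌊ω n⌋`. -/
noncomputable def R (ω δ : ℝ) : ℝ :=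
  Filter.limsup (fun n : ℕ => 1 / (n : ℝ) * Real.logb 2 (A n ⌈δ * n⌉₊ ⌊ω * n⌋₊)) Filter.atTop

/-- The von Neumann entropy, in bits, of a real symmetric matrix. -/
noncomputable def S {m : ℕ} (M : Matrix (Fin m) (Fin m) ℝ) : ℝ :=
  if hM : M.IsHermitian then ∑ i, Real.negMulLog (hM.eigenvalues i) / Real.log 2 else 0

/-- The block diagonal part of a matrix, for the partition of the coordinates into the two classes
`{i | pos i = x}`. -/
def D {m : ℕ} (pos : Fin m → Fin 2) (M : Matrix (Fin m) (Fin m) ℝ) : Matrix (Fin m) (Fin m) ℝ :=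
  Matrix.of fun i j => if pos i = pos j then M i j else 0

/-- The matrix bound `E(ω, δ)`. -/
noncomputable def E (ω δ : ℝ) : ℝ :=
  sInf {b | ∃ (m : ℕ) (pos : Fin m → Fin 2) (T : Matrix (Fin m) (Fin m) ℝ), T.PosSemidef ∧
    (T ^ 2).trace = 1 ∧ (∑ i, if pos i = 1 then (T ^ 2) i i else 0) = ω ∧
    1 - δ ≤ ∑ i, ∑ j, (if pos i = pos j then T i j ^ 2 else 0) ∧
    b = H ω - S (D pos (T ^ 2)) + S (T ^ 2)}

/-- The relative distance at which the linear programming bound of McEliece, Rodemich, Rumsey and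
Welch for words of weight `ω n` has the value `H τ`. -/
noncomputable def d (ω τ : ℝ) : ℝ := 2 * (ω * (1 - ω) - τ * (1 - τ)) / (1 + 2 * √(τ * (1 - τ)))

/-- The linear programming bound of McEliece, Rodemich, Rumsey and Welch for constant weight codes,
`H(½ (1 - √(1 - (√(4ω(1-ω) - 2δ + δ²) - δ)²)))`. -/
noncomputable def mrrw (ω δ : ℝ) : ℝ :=
  H (1 / 2 * (1 - √(1 - (√(4 * (ω * (1 - ω)) - 2 * δ + δ ^ 2) - δ) ^ 2)))

open Pool.Agent.H235R2.QLP Pool.Agent.TH753.MB Pool.Agent.TH971.MQ Pool.Agent.K9h1.CW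

lemma log2_pos : 0 < Real.log 2 := Real.log_pos (by norm_num)

lemma S_eq {m : ℕ} (M : Matrix (Fin m) (Fin m) ℝ) (hM : M.IsHermitian) :
    S M = ent M hM / Real.log 2 := by
  unfold S ent
  rw [dif_pos hM, Finset.sum_div]

lemma D_eq {m : ℕ} (pos : Fin m → Fin 2) (M : Matrix (Fin m) (Fin m) ℝ) :
    D pos M = dep pos M := rfl

/-- every member of the set comes from a site -/
lemma mem_ach {ω δ : ℝ} {m : ℕ} (pos : Fin m → Fin 2) (T : Matrix (Fin m) (Fin m) ℝ)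
    (hT : T.PosSemidef) (htr : (T ^ 2).trace = 1)
    (hω : (∑ i, if pos i = 1 then (T ^ 2) i i else 0) = ω)
    (haff : 1 - δ ≤ ∑ i, ∑ j, (if pos i = pos j then T i j ^ 2 else 0)) :
    ∃ c, Ach ω δ c ∧ H ω - S (D pos (T ^ 2)) + S (T ^ 2) = (Real.binEntropy ω - c) / Real.log 2 := by
  have h2 : (T ^ 2).IsHermitian := hT.isHermitian.pow 2
  have h3 := dep_herm pos h2
  obtain ⟨s, hcc, hEH, hP⟩ := exists_site' pos T hT htr h2 h3
  refine ⟨cc s, ⟨_, inferInstance, inferInstance, s, ?_, ?_, le_rfl⟩, ?_⟩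
  · rw [hP, hω]
  · rw [hEH]; linarith
  · rw [D_eq, S_eq _ h2, S_eq _ h3, hcc]
    unfold H
    ring

/-- every site gives an upper bound on `E` -/
lemma E_le {ω δ c : ℝ} (h0 : 0 < ω) (h1 : ω < 1) (hδ : 0 < δ) (h : Ach ω δ c) :
    E ω δ ≤ (Real.binEntropy ω - c) / Real.log 2 := by
  obtain ⟨Ω, i1, i2, s, hP, hE, hc⟩ := h
  obtain ⟨T, hT, htr, haff, hP', hent⟩ := of_site' s
  have h2 : (T ^ 2).IsHermitian := hT.isHermitian.pow 2
  have h3 := dep_herm s.pos h2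
  have e := Fintype.equivFin Ω
  set T' := T.submatrix e.symm e.symm with hT'
  have hp' : T'.PosSemidef := hT.submatrix e.symm
  have e1 : T' ^ 2 = (T ^ 2).submatrix e.symm e.symm := by
    rw [sq, sq, hT', Matrix.submatrix_mul_equiv]
  have e2 : dep (s.pos ∘ e.symm) (T' ^ 2) = (dep s.pos (T ^ 2)).submatrix e.symm e.symm := by
    rw [e1]; rfl
  have htr_sub : ∀ M : Matrix Ω Ω ℝ, (M.submatrix e.symm e.symm).trace = M.trace := by
    intro M
    unfold Matrix.trace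
    simp only [Matrix.diag_apply, Matrix.submatrix_apply]
    exact Equiv.sum_comp e.symm (fun i => M i i)
  have hch : ∀ M : Matrix Ω Ω ℝ, (M.submatrix e.symm e.symm).charpoly = M.charpoly := fun M =>
    Matrix.charpoly_reindex e M
  have h2' : (T' ^ 2).IsHermitian := hp'.isHermitian.pow 2
  have h3' := dep_herm (s.pos ∘ e.symm) h2'
  have hsum : (∑ i, ∑ j, if (s.pos ∘ e.symm) i = (s.pos ∘ e.symm) j then T' i j ^ 2 else 0)
      = ∑ i, ∑ j, (if s.pos i = s.pos j then T i j ^ 2 else 0) := by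
    rw [← Equiv.sum_comp e.symm]
    refine Finset.sum_congr rfl fun i _ => ?_
    rw [← Equiv.sum_comp e.symm]
    rfl
  have hmass : (∑ i, if (s.pos ∘ e.symm) i = 1 then (T' ^ 2) i i else 0) = ω := by
    rw [e1, ← hP, ← hP']
    exact Equiv.sum_comp e.symm (fun i => if s.pos i = 1 then (T ^ 2) i i else 0)
  have key : E ω δ ≤ H ω - S (D (s.pos ∘ e.symm) (T' ^ 2)) + S (T' ^ 2) := by
    refine csInf_le ⟨0, ?_⟩ ⟨_, s.pos ∘ e.symm, T', hp', by rw [e1, htr_sub, htr], hmass,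
      by rw [hsum, haff]; linarith, rfl⟩
    rintro b ⟨m, pos'', T'', a1, a2, a3, a4, rfl⟩
    obtain ⟨c', hc', e'⟩ := mem_ach pos'' T'' a1 a2 a3 a4
    rw [e']
    exact div_nonneg (by linarith [ach_le hc' h0 h1 hδ]) log2_pos.le
  refine key.trans ?_
  rw [D_eq, S_eq _ h2', S_eq _ h3', ent_reindex (T ^ 2) (T' ^ 2) h2 h2' (by rw [e1, hch]),
    ent_reindex (dep s.pos (T ^ 2)) (dep (s.pos ∘ e.symm) (T' ^ 2)) h3 h3' (by rw [e2, hch])]
  have h5 := hent h2 h3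
  unfold H
  rw [← sub_div, ← add_div]
  exact div_le_div_of_nonneg_right (by linarith) log2_pos.le

lemma set_nonempty {ω δ : ℝ} (h0 : 0 < ω) (h1 : ω < 1) (hδ : 0 < δ) :
    {b | ∃ (m : ℕ) (pos : Fin m → Fin 2) (T : Matrix (Fin m) (Fin m) ℝ), T.PosSemidef ∧
    (T ^ 2).trace = 1 ∧ (∑ i, if pos i = 1 then (T ^ 2) i i else 0) = ω ∧
    1 - δ ≤ ∑ i, ∑ j, (if pos i = pos j then T i j ^ 2 else 0) ∧
    b = H ω - S (D pos (T ^ 2)) + S (T ^ 2)}.Nonempty := by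
  have e2 : (Matrix.diagonal fun i : Fin 2 => if i = 1 then √ω else √(1 - ω)) ^ 2 =
      Matrix.diagonal fun i : Fin 2 => if i = 1 then ω else 1 - ω := by
    rw [Matrix.diagonal_pow]
    congr 1
    funext i
    fin_cases i
    · simp [Real.sq_sqrt (show (0 : ℝ) ≤ 1 - ω by linarith)]
    · simp [Real.sq_sqrt h0.le]
  refine ⟨_, 2, id, Matrix.diagonal fun i => if i = 1 then √ω else √(1 - ω), ?_, ?_, ?_, ?_, rfl⟩
  · rw [Matrix.posSemidef_diagonal_iff]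
    intro i
    split_ifs <;> exact Real.sqrt_nonneg _
  · rw [e2, Matrix.trace_diagonal]
    simp
  · rw [e2]
    simp
  · have h2 : ∀ i j : Fin 2, (if id i = id j then
        (Matrix.diagonal fun i : Fin 2 => if i = 1 then √ω else √(1 - ω)) i j ^ 2 else 0) =
        if i = j then (if i = 1 then ω else 1 - ω) else 0 := by
      intro i j
      fin_cases i <;> fin_cases j <;>
        simp [Real.sq_sqrt h0.le, Real.sq_sqrt (show (0 : ℝ) ≤ 1 - ω by linarith)]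
    simp_rw [h2]
    simp
    linarith

/-- members near the infimum -/
lemma near {ω δ ε : ℝ} (h0 : 0 < ω) (h1 : ω < 1) (hδ : 0 < δ) (hε : 0 < ε) :
    ∃ c, Ach ω δ c ∧ (Real.binEntropy ω - c) / Real.log 2 < E ω δ + ε := by
  obtain ⟨b, ⟨m, pos, T, hT, htr, hω, haff, rfl⟩, hb⟩ :=
    exists_lt_of_csInf_lt (set_nonempty h0 h1 hδ) (show E ω δ < E ω δ + ε by linarith)
  obtain ⟨c, hc, e⟩ := mem_ach pos T hT htr hω haff
  exact ⟨c, hc, by rw [← e]; exact hb⟩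

lemma E_nonneg {ω δ : ℝ} (h0 : 0 < ω) (h1 : ω < 1) (hδ : 0 < δ) : 0 ≤ E ω δ := by
  refine le_csInf (set_nonempty h0 h1 hδ) ?_
  rintro b ⟨m, pos'', T'', a1, a2, a3, a4, rfl⟩
  obtain ⟨c', hc', e'⟩ := mem_ach pos'' T'' a1 a2 a3 a4
  rw [e']
  exact div_nonneg (by linarith [ach_le hc' h0 h1 hδ]) log2_pos.le

lemma A_le {n d w : ℕ} {B : ℝ} (hB : 0 ≤ B) (h : ∀ C : Finset (Fin n → Fin 2),
    (∀ x ∈ C, hammingNorm x = w) → (∀ x ∈ C, ∀ y ∈ C, x ≠ y → d ≤ hammingDist x y) →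
      (C.card : ℝ) ≤ B) : (A n d w : ℝ) ≤ B := by
  have h1 : A n d w ≤ ⌊B⌋₊ := by
    refine csSup_le' ?_
    rintro k ⟨C, hC, hC2, rfl⟩
    exact Nat.le_floor (h C hC hC2)
  exact (Nat.cast_le.2 h1).trans (Nat.floor_le hB)

lemma A₀_le {n d : ℕ} {B : ℝ} (hB : 0 ≤ B) (h : ∀ C : Finset (Fin n → Fin 2),
    (∀ x ∈ C, ∀ y ∈ C, x ≠ y → d ≤ hammingDist x y) →
      (C.card : ℝ) ≤ B) : (A₀ n d : ℝ) ≤ B := by
  have h1 : A₀ n d ≤ ⌊B⌋₊ := by
    refine csSup_le' ?_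
    rintro k ⟨C, hC2, rfl⟩
    exact Nat.le_floor (h C hC2)
  exact (Nat.cast_le.2 h1).trans (Nat.floor_le hB)

lemma one_le_A₀ (n d : ℕ) : 1 ≤ A₀ n d := by
  refine le_csSup ⟨2 ^ n, ?_⟩ ⟨{0}, ?_, Finset.card_singleton _⟩
  · rintro k ⟨C, -, rfl⟩
    refine (Finset.card_le_univ C).trans ?_
    simp
  · intro x hx y hy hxy
    rw [Finset.mem_singleton] at hx hy
    exact absurd (hx.trans hy.symm) hxy

lemma one_le_A (n d w : ℕ) (h : w ≤ n) : 1 ≤ A n d w := by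
  obtain ⟨x, hx⟩ := exists_word n w h
  refine le_csSup ⟨2 ^ n, ?_⟩ ⟨{x}, ?_, ?_, Finset.card_singleton _⟩
  · rintro k ⟨C, -, -, rfl⟩
    refine (Finset.card_le_univ C).trans ?_
    simp
  · intro y hy
    rw [Finset.mem_singleton] at hy
    rw [hy, hx]
  · intro y hy z hz hyz
    rw [Finset.mem_singleton] at hy hz
    exact absurd (hy.trans hz.symm) hyz

lemma exp_eq (n b : ℝ) : Real.exp (n * (b * Real.log 2)) = (2 : ℝ) ^ (b * n) := by
  rw [Real.rpow_def_of_pos (by norm_num)]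
  congr 1
  ring

/-- the limsup is at most the bound -/
lemma limsup_le {a : ℕ → ℕ} {b : ℝ} (h1 : ∀ n, 1 ≤ a n)
    (h : ∀ ε : ℝ, 0 < ε → ∃ n0 : ℕ, ∀ n ≥ n0, (a n : ℝ) ≤ (2 : ℝ) ^ ((b + ε) * n)) :
    Filter.limsup (fun n : ℕ => 1 / (n : ℝ) * Real.logb 2 (a n)) Filter.atTop ≤ b := by
  refine le_of_forall_pos_le_add fun ε hε => ?_
  obtain ⟨n0, hn0⟩ := h ε hε
  refine Filter.limsup_le_of_le ?_ ?_
  · refine Filter.IsCoboundedUnder.of_frequently_ge (a := 0) ?_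
    refine Filter.Frequently.of_forall fun n => ?_
    refine mul_nonneg (by positivity) (Real.logb_nonneg (by norm_num) ?_)
    exact_mod_cast h1 n
  · filter_upwards [Filter.eventually_ge_atTop (max n0 1)] with n hn
    have hn1 : n0 ≤ n := (le_max_left _ _).trans hn
    have hn2 : 1 ≤ n := (le_max_right _ _).trans hn
    have hnR : (0 : ℝ) < n := by exact_mod_cast hn2
    have ha : (0 : ℝ) < a n := by exact_mod_cast h1 n
    have h2 := Real.logb_le_logb_of_le (b := 2) (by norm_num) ha (hn0 n hn1)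
    rw [Real.logb_rpow (by norm_num) (by norm_num)] at h2
    rw [one_div, inv_mul_le_iff₀ hnR]
    linarith

/-- **Main result.**

1. For `0 < ω < 1`, `0 < δ` and `ε > 0` there is `η > 0` such that for all large `n` and all `w`
with `|w - ω n| ≤ η n`: `A(n, ⌈δn⌉, w) ≤ 2^((E(ω,δ) + ε) n)`.

2. `R(ω,δ) ≤ E(ω,δ)`.

3. For `0 < ω < 1` and `0 < δ < 2 ω (1 - ω)`, `E(ω,δ)` is strictly smaller than the linear
programming bound of McEliece, Rodemich, Rumsey and Welch for constant weight codes.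

4. For the same `ω, δ`, `E(ω,δ)` is strictly smaller than `H(ω) - ∑ⱼ rⱼ (H(ωⱼ) - H(τⱼ))` for all
`r₁, ..., r_k > 0` of sum `1` and `0 ≤ τⱼ ≤ min (ωⱼ, 1 - ωⱼ, 1/2)` with `∑ⱼ rⱼ ωⱼ = ω` and
`∑ⱼ rⱼ d(ωⱼ,τⱼ) ≤ δ`.

5. `R(δ) ≤ 1 - H(ω) + E(ω,δ)` for all `0 < ω < 1` and `δ > 0`. -/
theorem result :
    (∀ ω δ ε : ℝ, 0 < ω → ω < 1 → 0 < δ → 0 < ε → ∃ η : ℝ, 0 < η ∧ ∃ n0 : ℕ, ∀ n ≥ n0, ∀ w : ℕ,
      |(w : ℝ) - ω * n| ≤ η * n → (A n ⌈δ * n⌉₊ w : ℝ) ≤ (2 : ℝ) ^ ((E ω δ + ε) * n)) ∧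
    (∀ ω δ : ℝ, 0 < ω → ω < 1 → 0 < δ → R ω δ ≤ E ω δ) ∧
    (∀ ω δ : ℝ, 0 < ω → ω < 1 → 0 < δ → δ < 2 * (ω * (1 - ω)) → E ω δ < mrrw ω δ) ∧
    (∀ ω δ : ℝ, 0 < ω → ω < 1 → 0 < δ → δ < 2 * (ω * (1 - ω)) →
      ∀ (k : ℕ) (r w τ : Fin k → ℝ), (∀ j, 0 < r j) → ∑ j, r j = 1 →
        (∀ j, 0 ≤ τ j ∧ τ j ≤ 1 / 2 ∧ τ j ≤ w j ∧ w j ≤ 1 - τ j) →
        ∑ j, r j * w j = ω → ∑ j, r j * d (w j) (τ j) ≤ δ →
        E ω δ < H ω - ∑ j, r j * (H (w j) - H (τ j))) ∧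
    (∀ ω δ : ℝ, 0 < ω → ω < 1 → 0 < δ → R₀ δ ≤ 1 - H ω + E ω δ) := by
  have P1 : ∀ ω δ ε : ℝ, 0 < ω → ω < 1 → 0 < δ → 0 < ε → ∃ η : ℝ, 0 < η ∧ ∃ n0 : ℕ, ∀ n ≥ n0,
      ∀ w : ℕ, |(w : ℝ) - ω * n| ≤ η * n →
        (A n ⌈δ * n⌉₊ w : ℝ) ≤ (2 : ℝ) ^ ((E ω δ + ε) * n) := by
    intro ω δ ε h0 h1 hδ hε
    obtain ⟨c, hc, hlt⟩ := near h0 h1 hδ (half_pos hε)
    obtain ⟨η, hη, n0, hn0⟩ := ach_bound hc h0 h1 hδ (ε := ε / 2 * Real.log 2)
      (mul_pos (half_pos hε) log2_pos)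
    refine ⟨η, hη, n0, fun n hn w hw => A_le (by positivity) fun C hC hd => ?_⟩
    refine (hn0 n hn w hw C hC fun x hx y hy hxy =>
      (Nat.le_ceil _).trans (by exact_mod_cast hd x hx y hy hxy)).trans ?_
    rw [← exp_eq]
    refine Real.exp_le_exp.2 (mul_le_mul_of_nonneg_left ?_ (Nat.cast_nonneg n))
    rw [div_lt_iff₀ log2_pos] at hlt
    linarith
  have P4 : ∀ ω δ : ℝ, 0 < ω → ω < 1 → 0 < δ → δ < 2 * (ω * (1 - ω)) →
      ∀ (k : ℕ) (r w τ : Fin k → ℝ), (∀ j, 0 < r j) → ∑ j, r j = 1 →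
        (∀ j, 0 ≤ τ j ∧ τ j ≤ 1 / 2 ∧ τ j ≤ w j ∧ w j ≤ 1 - τ j) →
        ∑ j, r j * w j = ω → ∑ j, r j * d (w j) (τ j) ≤ δ →
        E ω δ < H ω - ∑ j, r j * (H (w j) - H (τ j)) := by
    intro ω δ h0 h1 hδ hδ2 k r w τ hr hs hl hm hE
    obtain ⟨c, hc, hA⟩ := improve r w τ hr hs hl hδ hδ2 h0 h1 hm hE
    refine (E_le h0 h1 hδ hA).trans_lt ?_
    have e : ∑ j, r j * (H (w j) - H (τ j)) =
        (∑ j, r j * (Real.binEntropy (w j) - Real.binEntropy (τ j))) / Real.log 2 := by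
      rw [Finset.sum_div]
      refine Finset.sum_congr rfl fun j _ => ?_
      unfold H
      ring
    rw [e]
    unfold H
    rw [← sub_div]
    exact div_lt_div_of_pos_right (by linarith) log2_pos
  refine ⟨P1, ?_, ?_, P4, ?_⟩
  · intro ω δ h0 h1 hδ
    refine limsup_le (fun n => one_le_A _ _ _ ?_) fun ε hε => ?_
    · have h2 := Nat.floor_le (mul_nonneg h0.le (Nat.cast_nonneg (α := ℝ) n))
      have h3 : ((⌊ω * n⌋₊ : ℕ) : ℝ) ≤ n := by
        refine h2.trans ?_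
        have : (0 : ℝ) ≤ n := Nat.cast_nonneg n
        nlinarith
      exact_mod_cast h3
    · obtain ⟨η, hη, n0, hn0⟩ := P1 ω δ ε h0 h1 hδ hε
      obtain ⟨m, hm⟩ := exists_nat_gt (1 / η)
      refine ⟨max n0 m, fun n hn => hn0 n ((le_max_left _ _).trans hn) _ ?_⟩
      have hn2 : (m : ℝ) ≤ n := by exact_mod_cast (le_max_right _ _).trans hn
      have hηn : 1 ≤ η * n := by
        rw [div_lt_iff₀ hη] at hm
        nlinarith
      have hfl := Nat.floor_le (mul_nonneg h0.le (Nat.cast_nonneg (α := ℝ) n))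
      have hfl2 := Nat.lt_floor_add_one (ω * n)
      rw [abs_le]
      constructor <;> linarith
  · intro ω δ h0 h1 hδ hδ2
    have hw0 : 0 < ω * (1 - ω) := mul_pos h0 (by linarith)
    obtain ⟨q, hq⟩ : ∃ q, q = √(4 * (ω * (1 - ω)) - 2 * δ + δ ^ 2) := ⟨_, rfl⟩
    have hq0 : 0 ≤ q := by rw [hq]; exact Real.sqrt_nonneg _
    have hq2 : q ^ 2 = 4 * (ω * (1 - ω)) - 2 * δ + δ ^ 2 := by
      rw [hq, Real.sq_sqrt]
      nlinarith [sq_nonneg δ]
    obtain ⟨s, hs⟩ : ∃ s, s = q - δ := ⟨_, rfl⟩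
    have hs0 : 0 < s := by
      have : δ < q := by
        refine lt_of_pow_lt_pow_left₀ 2 hq0 ?_
        rw [hq2]
        linarith
      rw [hs]
      linarith
    have hs2 : s ^ 2 + 2 * s * δ + 2 * δ = 4 * (ω * (1 - ω)) := by
      rw [hs]
      linear_combination hq2
    have hsw : s ^ 2 ≤ 4 * (ω * (1 - ω)) := by nlinarith [mul_pos hs0 hδ]
    have hs1 : s ^ 2 ≤ 1 := by nlinarith [sq_nonneg (ω - 1 / 2)]
    obtain ⟨v, hv⟩ : ∃ v, v = √(1 - s ^ 2) := ⟨_, rfl⟩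
    have hv0 : 0 ≤ v := by rw [hv]; exact Real.sqrt_nonneg _
    have hv2 : v ^ 2 = 1 - s ^ 2 := by rw [hv, Real.sq_sqrt (by linarith)]
    have hv1 : v ≤ 1 := by
      refine le_of_sq_le_sq ?_ zero_le_one
      rw [hv2]
      nlinarith [sq_nonneg s]
    obtain ⟨τ, hτ⟩ : ∃ τ, τ = 1 / 2 * (1 - v) := ⟨_, rfl⟩
    have hττ : τ * (1 - τ) = (s / 2) ^ 2 := by
      rw [hτ]
      linear_combination (-1 / 4 : ℝ) * hv2
    have hsq : √(τ * (1 - τ)) = s / 2 := by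
      rw [hττ, Real.sqrt_sq (by linarith)]
    have hprod : 0 ≤ (ω - τ) * (1 - ω - τ) := by
      have : (ω - τ) * (1 - ω - τ) = ω * (1 - ω) - τ * (1 - τ) := by ring
      rw [this, hττ]
      nlinarith
    have hsum : 0 ≤ (ω - τ) + (1 - ω - τ) := by rw [hτ]; linarith
    have hb : 0 ≤ ω - τ ∧ 0 ≤ 1 - ω - τ := by
      constructor
      · by_contra hcon
        push Not at hcon
        nlinarith
      · by_contra hcon
        push Not at hcon
        nlinarith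
    have hd : d ω τ = δ := by
      unfold d
      rw [hsq, hττ, div_eq_iff (by positivity)]
      linear_combination (1 / 2 : ℝ) * (-hs2)
    have h3 := P4 ω δ h0 h1 hδ hδ2 1 (fun _ => 1) (fun _ => ω) (fun _ => τ) (fun _ => one_pos)
      (by simp) (fun _ => ⟨by rw [hτ]; linarith, by rw [hτ]; linarith, by linarith [hb.1],
        by linarith [hb.2]⟩) (by simp) (by simp [hd])
    simp only [Finset.univ_unique, Finset.sum_const, Finset.card_singleton, one_smul, one_mul]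
      at h3
    have e : mrrw ω δ = H τ := by
      unfold mrrw
      rw [← hq, ← hs, ← hv, ← hτ]
    rw [e]
    linarith
  · intro ω δ h0 h1 hδ
    refine limsup_le (fun n => one_le_A₀ _ _) fun ε hε => ?_
    obtain ⟨c, hc, hlt⟩ := near h0 h1 hδ (half_pos hε)
    obtain ⟨Ω, i1, i2, s, hP, hE, hcs⟩ := hc
    obtain ⟨n0, hn0⟩ := code_bound (Fin 2) (by simp) s hδ hE (half_pos hε)
    refine ⟨n0, fun n hn => A₀_le (by positivity) fun C hC => ?_⟩
    refine (hn0 n hn C fun x hx y hy hxy =>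
      (Nat.le_ceil _).trans (by exact_mod_cast hC x hx y hy hxy)).trans ?_
    have e2 : ((Fintype.card (Fin 2) : ℕ) : ℝ) = 2 := by simp
    rw [e2]
    refine Real.rpow_le_rpow_of_exponent_le (by norm_num) ?_
    have h3 : c / Real.log 2 ≤ cc s / Real.log 2 := div_le_div_of_nonneg_right hcs log2_pos.le
    rw [sub_div] at hlt
    have h4 : 1 - cc s / Real.log 2 + ε / 2 ≤ 1 - H ω + E ω δ + ε := by
      unfold H
      linarith
    exact mul_le_mul_of_nonneg_right h4 (Nat.cast_nonneg n)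

end Pool.Agent.Results.MP_0430e4_lc.ConstantWeightBound
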