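import Mathlib
import Pool.Agent.K9h1.LB.Lower

/-!
MP_0430e4_lc (helper1).  The complete linear programming hierarchy for binary linear codes
(Coregliano, Jeronimo and Jones; Loyfer and Linial) stays exponentially above the
Gilbert-Varshamov bound, by an amount which does not depend on the level, for every level up to a
constant times the length.  Level `ℓ` proves `|C| ^ ℓ ≤ value`; its value at relative distance `δ`
is at least `2 ^ ((1 - H(δ) + c) ℓ n)` for all `1 ≤ ℓ ≤ ε n`, with `c, ε > 0` depending on `δ` only.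

The case of fields with at least three elements is in `Pool.Agent.N381.UQ` (MP_52e41e_co).  Over the
field with two elements the ball has a second group of large Fourier coefficients, around the all
ones word, and the construction there fails.  Here the explicit function which avoids the ball is
built from the frequencies near zero and near the all ones word together, and all others are bounded
by a factor `((1 + r ^ 2) / (1 + r) ^ 2) ^ min (w, n - w)` on the generating function of the ball.
-/

set_option autoImplicit false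

namespace Pool.Agent.Results.MP_0430e4_lc.LinearHierarchyBinary

open Finset Filter

/-- The binary entropy function. -/
noncomputable def H (x : ℝ) : ℝ := -x * Real.logb 2 x - (1 - x) * Real.logb 2 (1 - x)

/-- The nontrivial character of the two-element field, `(-1) ^ t`. -/
def sgn (t : ZMod 2) : ℝ := if t = 0 then 1 else -1

/-- `a` is a feasible solution of level `ℓ` of the linear programming hierarchy for binary linear
codes of length `n` and minimum distance at least `d`: a nonnegative function of `ℓ`-tuples of words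
with `a 0 = 1`, which vanishes at each tuple whose span contains a word of weight in `(0, d)`, and
whose Fourier transform on `({0,1} ^ n) ^ ℓ` is nonnegative.  For a linear code `C` with minimum
distance at least `d` the indicator of `C ^ ℓ` is feasible, with total mass `|C| ^ ℓ`. -/
def IsFeasible (ℓ n d : ℕ) (a : (Fin ℓ → Fin n → ZMod 2) → ℝ) : Prop :=
  a 0 = 1 ∧ (∀ X, 0 ≤ a X) ∧
  (∀ X, (∃ c : Fin ℓ → ZMod 2, 0 < hammingNorm (∑ i, c i • X i) ∧
    hammingNorm (∑ i, c i • X i) < d) → a X = 0) ∧
  ∀ Y : Fin ℓ → Fin n → ZMod 2, 0 ≤ ∑ X, a X * sgn (∑ i, ∑ j, X i j * Y i j)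

lemma zmod_cases (t : ZMod 2) : t = 0 ∨ t = 1 := by
  revert t
  decide

lemma sg_eq (t : ZMod 2) : N381.UQ.sg t = ((sgn t : ℝ) : ℂ) := by
  obtain ⟨a, ha⟩ := N381.UQ.exists_sg (F := ZMod 2) (t := 1) one_ne_zero
  have h1 : N381.UQ.sg (1 : ZMod 2) ≠ 1 := by
    rcases zmod_cases a with h | h
    · intro _
      apply ha
      rw [h, zero_mul, N381.UQ.sg_zero]
    · rw [h, one_mul] at ha
      exact ha
  have h2 : N381.UQ.sg (1 : ZMod 2) * N381.UQ.sg (1 : ZMod 2) = 1 := by
    rw [← N381.UQ.sg_add]
    have : (1 : ZMod 2) + 1 = 0 := by decide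
    rw [this, N381.UQ.sg_zero]
  have h3 : N381.UQ.sg (1 : ZMod 2) = -1 := by
    rcases mul_self_eq_one_iff.1 h2 with h | h
    · exact absurd h h1
    · exact h
  rcases zmod_cases t with h | h
  · rw [h, N381.UQ.sg_zero]
    unfold sgn
    rw [if_pos rfl]
    norm_num
  · rw [h, h3]
    unfold sgn
    rw [if_neg one_ne_zero]
    norm_num

lemma feasible_of {ℓ n d : ℕ} {a : Matrix (Fin ℓ) (Fin n) (ZMod 2) → ℝ}
    (h : N381.UQ.Fs ℓ n d a) : IsFeasible ℓ n d a := by
  refine ⟨h.zero, h.nonneg, ?_, ?_⟩
  · rintro X ⟨c, h0, h1⟩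
    have e : Matrix.vecMul c (Matrix.of X) = ∑ i, c i • X i := Matrix.vecMul_eq_sum _ _
    refine h.dist X c ?_ ?_
    · change 0 < hammingNorm (Matrix.vecMul c (Matrix.of X))
      rw [e]
      exact h0
    · change hammingNorm (Matrix.vecMul c (Matrix.of X)) < d
      rw [e]
      exact h1
  · intro Y
    have h1 := h.re (Matrix.of Y)
    have e : (∑ X, (a X : ℂ) * N381.UQ.ch X (Matrix.of Y)) =
        ((∑ X : Fin ℓ → Fin n → ZMod 2, a X * sgn (∑ i, ∑ j, X i j * Y i j) : ℝ) : ℂ) := by
      push_cast
      refine Finset.sum_congr rfl fun X _ => ?_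
      refine congrArg (fun z => (a X : ℂ) * z) ?_
      exact sg_eq _
    rw [e, Complex.ofReal_re] at h1
    exact h1

/-- **Levels up to a constant times the length of the hierarchy for binary linear codes are
exponentially above Gilbert-Varshamov, by an amount which does not depend on the level.** For each
`δ ∈ (0, 1/2)` there are `c, ε > 0` such that for each large `n` and each level `1 ≤ ℓ ≤ ε n` the
level `ℓ` program at length `n` and distance `⌈δ n⌉` has a feasible solution of total mass at least
`2 ^ ((1 - H(δ) + c) ℓ n)`. -/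
theorem result (δ : ℝ) (h0 : 0 < δ) (h1 : δ < 1 / 2) :
    ∃ c ε : ℝ, 0 < c ∧ 0 < ε ∧ ∀ᶠ n : ℕ in atTop, ∀ ℓ : ℕ, 1 ≤ ℓ → (ℓ : ℝ) ≤ ε * n →
      ∃ a : (Fin ℓ → Fin n → ZMod 2) → ℝ, IsFeasible ℓ n ⌈δ * n⌉₊ a ∧
        (2 : ℝ) ^ ((1 - H δ + c) * (ℓ * n)) ≤ ∑ X, a X := by
  obtain ⟨c, ε, hc, hε, hlow⟩ := K9h1.LB.lower2 (F := ZMod 2) (by simp [ZMod.card]) h0 h1
  refine ⟨c, ε, hc, hε, ?_⟩
  have hH : Real.binEntropy δ / Real.log 2 = H δ := by
    unfold Real.binEntropy H Real.logb
    rw [Real.log_inv, Real.log_inv]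
    ring
  filter_upwards [hlow] with n hn ℓ hℓ hle
  obtain ⟨a, ha, hval⟩ := hn ℓ hℓ hle
  rw [hH] at hval
  exact ⟨a, feasible_of ha, hval⟩

end Pool.Agent.Results.MP_0430e4_lc.LinearHierarchyBinary
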