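import Pool.Agent.K9h1.MD.Lin

/-!
# Near-optimal binary codes have exponentially many codewords near the minimum distance

Let `R(δ)` be the best asymptotic rate of binary codes of relative minimum distance `δ`, and
`Rlin(δ)` the best asymptotic rate of linear ones, `0 < δ < 1/2`. We show, without any assumption on
the unknown values of these functions: in a binary code with minimum distance at least `δ n` all but
at most `2 ^ ((1 - ε/4) R(δ) n)` codewords have at least `2 ^ (c ε n)` codewords at distance at most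
`(δ + ε) n`, where `c = δ R(δ)² / 80`, for every `0 < ε ≤ δ R(δ) / 8` and every large `n`. Similarly
for linear codes, with `Rlin` in place of `R`. For random codes on the Gilbert-Varshamov bound the
number of these neighbours is also exponential with an exponent linear in `ε`, so this is the right
order of magnitude for small `ε`.
-/

namespace Pool.Agent.Results.MP_0430e4_lc.MinimumDistanceNeighbours

open Filter Topology

/-- The largest size of a binary code of length `n` and minimum distance at least `d`. -/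
noncomputable def A (n d : ℕ) : ℕ :=
  sSup {k | ∃ C : Finset (Fin n → Bool),
    (∀ x ∈ C, ∀ y ∈ C, x ≠ y → d ≤ hammingDist x y) ∧ C.card = k}

/-- The best asymptotic rate of binary codes of relative minimum distance `δ`. -/
noncomputable def R (δ : ℝ) : ℝ :=
  limsup (fun n : ℕ => 1 / (n : ℝ) * Real.logb 2 (A n ⌈δ * n⌉₊)) atTop

/-- The largest dimension of a linear binary code of length `n` and minimum distance at least `d`. -/
noncomputable def K (n d : ℕ) : ℕ :=
  sSup {k | ∃ C : Submodule (ZMod 2) (Fin n → ZMod 2),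
    (∀ x ∈ C, x ≠ 0 → d ≤ hammingNorm x) ∧ Module.finrank (ZMod 2) C = k}

/-- The best asymptotic rate of linear binary codes of relative minimum distance `δ`. -/
noncomputable def Rlin (δ : ℝ) : ℝ :=
  limsup (fun n : ℕ => (K n ⌈δ * n⌉₊ : ℝ) / n) atTop

lemma Rlin_eq (δ : ℝ) : Rlin δ = Pool.Agent.K9h1.MD.rate (fun n d => 2 ^ K n d) δ := by
  unfold Rlin Pool.Agent.K9h1.MD.rate
  congr 1
  funext n
  push_cast
  rw [Real.logb_pow, Real.logb_self_eq_one (by norm_num)]
  ring

/-- The number of other codewords of `C` at distance at most `s` from `x`. -/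
noncomputable def neighbours {n : ℕ} (C : Finset (Fin n → Bool)) (x : Fin n → Bool) (s : ℝ) : ℕ :=
  (C.filter fun y => y ≠ x ∧ (hammingDist x y : ℝ) ≤ s).card

/-- For `0 < δ < 1/2` the rates `R(δ)` and `Rlin(δ)` are positive, and for every small `ε > 0` and
every large `n`: a binary code with minimum distance at least `δ n` has at most
`2 ^ ((1 - ε/4) R(δ) n)` codewords with fewer than `2 ^ ((δ R(δ)² / 80) ε n)` codewords at distance
at most `(δ + ε) n`; and a linear binary code with minimum distance at least `δ n` and dimension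
more than `(1 - ε/4) Rlin(δ) n` has at least `2 ^ ((δ Rlin(δ)² / 80) ε n)` nonzero codewords of
weight at most `(δ + ε) n`. -/
theorem result {δ : ℝ} (h0 : 0 < δ) (h1 : δ < 1 / 2) :
    (0 < R δ ∧ ∀ ε : ℝ, 0 < ε → ε ≤ δ * R δ / 8 →
      ∃ n₀ : ℕ, ∀ n ≥ n₀, ∀ C : Finset (Fin n → Bool),
        (∀ x ∈ C, ∀ y ∈ C, x ≠ y → δ * n ≤ hammingDist x y) →
        ((C.filter fun x => (neighbours C x ((δ + ε) * n) : ℝ) <
          2 ^ (δ * R δ ^ 2 / 80 * ε * n)).card : ℝ) ≤ 2 ^ ((1 - ε / 4) * R δ * n)) ∧
    (0 < Rlin δ ∧ ∀ ε : ℝ, 0 < ε → ε ≤ δ * Rlin δ / 8 →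
      ∃ n₀ : ℕ, ∀ n ≥ n₀, ∀ C : Submodule (ZMod 2) (Fin n → ZMod 2),
        (∀ x ∈ C, x ≠ 0 → δ * n ≤ hammingNorm x) →
        (1 - ε / 4) * Rlin δ * n < Module.finrank (ZMod 2) C →
        (2 : ℝ) ^ (δ * Rlin δ ^ 2 / 80 * ε * n) ≤
          Nat.card {x : Fin n → ZMod 2 // x ∈ C ∧ x ≠ 0 ∧ (hammingNorm x : ℝ) ≤ (δ + ε) * n}) := by
  refine ⟨⟨?_, ?_⟩, ?_, ?_⟩
  · exact Pool.Agent.K9h1.MD.good_A.rate_pos h0 h1
  · intro ε hε0 hε
    exact eventually_atTop.1 (Pool.Agent.K9h1.MD.neighbours h0 h1 hε0 hε)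
  · rw [Rlin_eq]
    exact Pool.Agent.K9h1.MD.good_K.rate_pos h0 h1
  · rw [Rlin_eq]
    intro ε hε0 hε
    exact eventually_atTop.1 (Pool.Agent.K9h1.MD.neighbours_lin h0 h1 hε0 hε)

end Pool.Agent.Results.MP_0430e4_lc.MinimumDistanceNeighbours
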