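import Pool.Agent.K9h1.HB.Cover

/-!
# Rank bounds for binary codes have the exponent of the sphere packing bound

Haemers' bound for `A(n, d)` over a field `F`: if `M` is a matrix over `F` indexed by the words of
length `n`, with nonzero diagonal and `M x y = 0` for all words `x, y` at distance at least `d`, then
`A(n, d) ≤ rank M`. More generally (fractional bound) the entries may be `k × k` blocks, with
identity blocks on the diagonal and zero blocks for words at distance at least `d`, and then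
`A(n, d) ≤ rank M / k`. The field, its characteristic and `k` are free.

We show that for every `n`, `d` and every field the best bounds of this kind are, up to the factor
`2 (n + 1)`, the sphere packing bound `2^n / V`, `V` the size of a ball of radius `⌊(d - 1)/2⌋`. So
for `0 < δ < 1` their exponent for the distance `⌈δ n⌉` is `1 - H(δ / 2)`.
-/

namespace Pool.Agent.Results.MP_0430e4_lc.RankBounds

open Filter Topology

/-- The largest size of a binary code of length `n` and minimum distance at least `d`. -/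
noncomputable def A (n d : ℕ) : ℕ :=
  sSup {k | ∃ C : Finset (Fin n → Bool),
    (∀ x ∈ C, ∀ y ∈ C, x ≠ y → d ≤ hammingDist x y) ∧ C.card = k}

/-- The binary entropy function, in bits. -/
noncomputable def H (x : ℝ) : ℝ := Real.binEntropy x / Real.log 2

/-- The number of words at distance at most `r` from a given word of length `n`. -/
def V (n r : ℕ) : ℕ := ∑ i ∈ Finset.range (r + 1), n.choose i

/-- Haemers' bound over the field `F`: the smallest rank of a matrix with nonzero diagonal which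
vanishes at all pairs of words at distance at least `d`. -/
noncomputable def haemers (F : Type) [Field F] (n d : ℕ) : ℕ :=
  sInf {r | ∃ M : Matrix (Fin n → Bool) (Fin n → Bool) F, (∀ x, M x x ≠ 0) ∧
    (∀ x y, d ≤ hammingDist x y → M x y = 0) ∧ r = M.rank}

/-- The fractional Haemers bound over the field `F`: the infimum of `rank M / k` over all `k ≥ 1` and
all matrices `M` of `k × k` blocks with identity blocks on the diagonal and zero blocks at all pairs
of words at distance at least `d`. -/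
noncomputable def fracHaemers (F : Type) [Field F] (n d : ℕ) : ℝ :=
  sInf {r | ∃ (k : ℕ) (M : Matrix ((Fin n → Bool) × Fin k) ((Fin n → Bool) × Fin k) F), 1 ≤ k ∧
    (∀ x i j, M (x, i) (x, j) = if i = j then 1 else 0) ∧
    (∀ x y i j, d ≤ hammingDist x y → M (x, i) (y, j) = 0) ∧ r = (M.rank : ℝ) / k}

open Pool.Agent.K9h1.HB

lemma V_eq (n r : ℕ) : V n r = vol n r := rfl

section field

variable (F : Type) [Field F]

lemma frac_bdd (n d : ℕ) : BddBelow {r : ℝ | ∃ (k : ℕ)
    (M : Matrix ((Fin n → Bool) × Fin k) ((Fin n → Bool) × Fin k) F), 1 ≤ k ∧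
    (∀ x i j, M (x, i) (x, j) = if i = j then 1 else 0) ∧
    (∀ x y i j, d ≤ hammingDist x y → M (x, i) (y, j) = 0) ∧ r = (M.rank : ℝ) / k} := by
  refine ⟨0, ?_⟩
  rintro r ⟨k, M, -, -, -, rfl⟩
  positivity

lemma haemers_mem {n d : ℕ} (hd : 1 ≤ d) : ∃ M : Matrix (Fin n → Bool) (Fin n → Bool) F,
    (∀ x, M x x ≠ 0) ∧ (∀ x y, d ≤ hammingDist x y → M x y = 0) ∧ haemers F n d = M.rank := by
  obtain ⟨M, h1, h2, -⟩ := exists_matrix F (n := n) hd
  exact Nat.sInf_mem (s := {r | ∃ M : Matrix (Fin n → Bool) (Fin n → Bool) F, (∀ x, M x x ≠ 0) ∧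
    (∀ x y, d ≤ hammingDist x y → M x y = 0) ∧ r = M.rank})
    ⟨_, M, fun x => by rw [h1]; exact one_ne_zero, h2, rfl⟩

lemma frac_le {n d : ℕ} (hd : 1 ≤ d) : fracHaemers F n d ≤ haemers F n d := by
  classical
  obtain ⟨M, h1, h2, h3⟩ := haemers_mem F (n := n) hd
  obtain ⟨M', hM'⟩ : ∃ M' : Matrix ((Fin n → Bool) × Fin 1) ((Fin n → Bool) × Fin 1) F,
      M' = (Matrix.diagonal (fun x => (M x x)⁻¹) * M).submatrix Prod.fst Prod.fst := ⟨_, rfl⟩
  have hr : M'.rank ≤ M.rank := by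
    rw [hM']
    exact (Matrix.rank_submatrix_le _ _ _).trans (Matrix.rank_mul_le_right _ _)
  have h4 : fracHaemers F n d ≤ (M'.rank : ℝ) / (1 : ℕ) := by
    refine csInf_le (frac_bdd F n d) ⟨1, M', le_rfl, ?_, ?_, rfl⟩
    · intro x i j
      rw [hM', Matrix.submatrix_apply, Matrix.diagonal_mul, inv_mul_cancel₀ (h1 x),
        if_pos (Subsingleton.elim _ _)]
    · intro x y i j hxy
      rw [hM', Matrix.submatrix_apply, Matrix.diagonal_mul, h2 _ _ hxy, mul_zero]
  refine h4.trans ?_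
  rw [Nat.cast_one, div_one, h3]
  exact_mod_cast hr

lemma A_le {n d : ℕ} (hd : 1 ≤ d) : (A n d : ℝ) ≤ fracHaemers F n d := by
  classical
  obtain ⟨M₀, h1, h2, -⟩ := haemers_mem F (n := n) hd
  obtain ⟨C, hC, hcard⟩ : ∃ C : Finset (Fin n → Bool),
      (∀ x ∈ C, ∀ y ∈ C, x ≠ y → d ≤ hammingDist x y) ∧ C.card = A n d := by
    refine Nat.sSup_mem (s := {k | ∃ C : Finset (Fin n → Bool),
      (∀ x ∈ C, ∀ y ∈ C, x ≠ y → d ≤ hammingDist x y) ∧ C.card = k}) ⟨0, ∅, by simp, by simp⟩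
      ⟨Fintype.card (Fin n → Bool), ?_⟩
    rintro k ⟨C, -, rfl⟩
    exact Finset.card_le_univ C
  obtain ⟨N₀, hN₀1, hN₀2, -⟩ := exists_matrix F (n := n) hd
  refine le_csInf ⟨_, 1, N₀.submatrix Prod.fst Prod.fst, le_rfl, ?_, ?_, rfl⟩ ?_
  · intro x i j
    rw [Matrix.submatrix_apply, hN₀1, if_pos (Subsingleton.elim _ _)]
  · intro x y i j hxy
    rw [Matrix.submatrix_apply, hN₀2 _ _ hxy]
  rintro r ⟨k, M, hk, hM1, hM2, rfl⟩
  have hkR : (0 : ℝ) < k := by exact_mod_cast hk
  rw [le_div_iff₀ hkR]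
  have h3 : M.submatrix (fun p : C × Fin k => (p.1.1, p.2)) (fun p : C × Fin k => (p.1.1, p.2)) =
      1 := by
    ext ⟨x, i⟩ ⟨y, j⟩
    rw [Matrix.submatrix_apply, Matrix.one_apply]
    by_cases hxy : x = y
    · subst hxy
      rw [hM1]
      by_cases hij : i = j
      · rw [if_pos hij, if_pos (by rw [hij])]
      · rw [if_neg hij, if_neg (fun h => hij (congrArg Prod.snd h))]
    · rw [if_neg (fun h => hxy (congrArg Prod.fst h))]
      exact hM2 _ _ _ _ (hC x.1 x.2 y.1 y.2 fun h => hxy (Subtype.ext h))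
  have h4 := Matrix.rank_submatrix_le M (fun p : C × Fin k => (p.1.1, p.2))
    (fun p : C × Fin k => (p.1.1, p.2))
  rw [h3, Matrix.rank_one, Fintype.card_prod, Fintype.card_coe, Fintype.card_fin, hcard] at h4
  exact_mod_cast h4

lemma frac_ge {n d : ℕ} (hd : 1 ≤ d) :
    (2 : ℝ) ^ n ≤ 2 * (n + 1) * V n ((d - 1) / 2) * fracHaemers F n d := by
  classical
  have hV : (0 : ℝ) < V n ((d - 1) / 2) := by exact_mod_cast vol_pos n ((d - 1) / 2)
  have hK : (0 : ℝ) < 2 * (n + 1) * V n ((d - 1) / 2) := by positivity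
  rw [mul_comm, ← div_le_iff₀ hK]
  obtain ⟨N₀, hN₀1, hN₀2, -⟩ := exists_matrix F (n := n) hd
  refine le_csInf ⟨_, 1, N₀.submatrix Prod.fst Prod.fst, le_rfl, ?_, ?_, rfl⟩ ?_
  · intro x i j
    rw [Matrix.submatrix_apply, hN₀1, if_pos (Subsingleton.elim _ _)]
  · intro x y i j hxy
    rw [Matrix.submatrix_apply, hN₀2 _ _ hxy]
  rintro r ⟨k, M, hk, hM1, hM2, rfl⟩
  have hkR : (0 : ℝ) < k := by exact_mod_cast hk
  rw [div_le_div_iff₀ hK hkR]
  have h1 := rank_ge hd M hM1 hM2
  have h2 : ((2 ^ n * k : ℕ) : ℝ) ≤ ((2 * ((n + 1) * vol n ((d - 1) / 2) * M.rank) : ℕ) : ℝ) := by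
    exact_mod_cast h1
  push_cast at h2
  rw [V_eq]
  linarith

lemma haemers_le {n d : ℕ} (hd : 1 ≤ d) :
    (haemers F n d : ℝ) ≤ n * 2 ^ n / V n ((d - 1) / 2) + 1 := by
  obtain ⟨M, h1, h2, h3⟩ := exists_matrix F (n := n) hd
  refine le_trans ?_ h3
  have : haemers F n d ≤ M.rank :=
    Nat.sInf_le ⟨M, fun x => by rw [h1]; exact one_ne_zero, h2, rfl⟩
  exact_mod_cast this

end field

lemma tendsto_log : Tendsto (fun n : ℕ => Real.log ((n : ℝ) + 1) / n) atTop (𝓝 0) := by
  have h2 : Tendsto (fun x : ℝ => Real.log x / x) atTop (𝓝 0) := by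
    have := Real.isLittleO_log_id_atTop.tendsto_div_nhds_zero
    simpa using this
  have h3 : Tendsto (fun n : ℕ => (n : ℝ) + 1) atTop atTop :=
    tendsto_atTop_add_const_right _ _ tendsto_natCast_atTop_atTop
  have h4 : Tendsto (fun n : ℕ => Real.log ((n : ℝ) + 1) / ((n : ℝ) + 1) * (1 + 1 / (n : ℝ)))
      atTop (𝓝 (0 * (1 + 0))) :=
    (h2.comp h3).mul (tendsto_const_nhds.add (tendsto_const_div_atTop_nhds_zero_nat 1))
  rw [zero_mul] at h4
  refine h4.congr' ?_
  filter_upwards [eventually_ge_atTop 1] with n hn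
  have hnR : (0 : ℝ) < n := by exact_mod_cast hn
  field_simp

/-- the exponent of sequences between the two bounds -/
lemma exponent {δ : ℝ} (h0 : 0 < δ) (h1 : δ < 1) (f : ℕ → ℝ)
    (hlo : ∀ n : ℕ, 1 ≤ n →
      (2 : ℝ) ^ n ≤ 2 * (n + 1) * V n ((⌈δ * n⌉₊ - 1) / 2) * f n)
    (hup : ∀ n : ℕ, 1 ≤ n → f n ≤ n * 2 ^ n / V n ((⌈δ * n⌉₊ - 1) / 2) + 1) :
    Tendsto (fun n : ℕ => 1 / (n : ℝ) * Real.logb 2 (f n)) atTop (𝓝 (1 - H (δ / 2))) := by
  have hl2 : 0 < Real.log 2 := Real.log_pos (by norm_num)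
  have hvol := vol_exp h0 h1
  have hinv : Tendsto (fun n : ℕ => (1 : ℝ) / n) atTop (𝓝 0) :=
    tendsto_const_div_atTop_nhds_zero_nat 1
  obtain ⟨v, hv⟩ : ∃ v : ℕ → ℝ, v = fun n : ℕ =>
      Real.log (vol n ((⌈δ * n⌉₊ - 1) / 2)) / n := ⟨_, rfl⟩
  rw [← hv] at hvol
  have hL : Tendsto (fun n : ℕ => (Real.log 2 - v n - Real.log 2 * (1 / n) -
      Real.log ((n : ℝ) + 1) / n) / Real.log 2) atTop
      (𝓝 ((Real.log 2 - Real.binEntropy (δ / 2) - Real.log 2 * 0 - 0) / Real.log 2)) :=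
    (((tendsto_const_nhds.sub hvol).sub (hinv.const_mul _)).sub tendsto_log).div_const _
  have hU : Tendsto (fun n : ℕ => (Real.log 2 - v n + Real.log ((n : ℝ) + 1) / n) / Real.log 2)
      atTop (𝓝 ((Real.log 2 - Real.binEntropy (δ / 2) + 0) / Real.log 2)) :=
    ((tendsto_const_nhds.sub hvol).add tendsto_log).div_const _
  have e1 : (Real.log 2 - Real.binEntropy (δ / 2) - Real.log 2 * 0 - 0) / Real.log 2 =
      1 - H (δ / 2) := by
    unfold H
    field_simp
    ring
  have e2 : (Real.log 2 - Real.binEntropy (δ / 2) + 0) / Real.log 2 = 1 - H (δ / 2) := by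
    unfold H
    field_simp
    ring
  rw [e1] at hL
  rw [e2] at hU
  have hf : ∀ n : ℕ, 1 ≤ n → 0 < f n := by
    intro n hn
    have hV : (0 : ℝ) < V n ((⌈δ * n⌉₊ - 1) / 2) := by exact_mod_cast vol_pos n _
    have h2 := (show (0 : ℝ) < 2 ^ n by positivity).trans_le (hlo n hn)
    by_contra hcon
    push Not at hcon
    have h3 : 2 * ((n : ℝ) + 1) * V n ((⌈δ * n⌉₊ - 1) / 2) * f n ≤ 0 :=
      mul_nonpos_of_nonneg_of_nonpos (by positivity) hcon
    linarith
  refine tendsto_of_tendsto_of_tendsto_of_le_of_le' hL hU ?_ ?_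
  · filter_upwards [eventually_ge_atTop 1] with n hn
    have hnR : (0 : ℝ) < n := by exact_mod_cast hn
    have hV : (0 : ℝ) < V n ((⌈δ * n⌉₊ - 1) / 2) := by exact_mod_cast vol_pos n _
    have h2 := Real.log_le_log (by positivity) (hlo n hn)
    rw [Real.log_mul (by positivity) (hf n hn).ne', Real.log_mul (by positivity) hV.ne',
      Real.log_mul (by norm_num) (by positivity), Real.log_pow] at h2
    have e3 : v n * n = Real.log (V n ((⌈δ * n⌉₊ - 1) / 2)) := by
      rw [hv, V_eq]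
      exact div_mul_cancel₀ _ hnR.ne'
    have e5 : 1 / (n : ℝ) * (Real.log (f n) / Real.log 2) =
        ((n : ℝ)⁻¹ * Real.log (f n)) / Real.log 2 := by ring
    rw [Real.logb, e5, div_le_div_iff_of_pos_right hl2, le_inv_mul_iff₀ hnR]
    have e4 : (n : ℝ) * (Real.log 2 - v n - Real.log 2 * (1 / n) - Real.log ((n : ℝ) + 1) / n) =
        n * Real.log 2 - v n * n - Real.log 2 - Real.log ((n : ℝ) + 1) := by
      field_simp
    rw [e4, e3]
    linarith
  · filter_upwards [eventually_ge_atTop 1] with n hn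
    have hnR : (0 : ℝ) < n := by exact_mod_cast hn
    have hV : (0 : ℝ) < V n ((⌈δ * n⌉₊ - 1) / 2) := by exact_mod_cast vol_pos n _
    have h2 : f n ≤ (n + 1) * (2 ^ n / V n ((⌈δ * n⌉₊ - 1) / 2)) := by
      refine (hup n hn).trans ?_
      have : 1 ≤ (2 : ℝ) ^ n / V n ((⌈δ * n⌉₊ - 1) / 2) := by
        rw [one_le_div hV]
        exact_mod_cast vol_le_two_pow n _
      rw [mul_div_assoc]
      linarith
    have h3 := Real.log_le_log (hf n hn) h2
    rw [Real.log_mul (by positivity) (by positivity), Real.log_div (by positivity) hV.ne',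
      Real.log_pow] at h3
    have e3 : v n * n = Real.log (V n ((⌈δ * n⌉₊ - 1) / 2)) := by
      rw [hv, V_eq]
      exact div_mul_cancel₀ _ hnR.ne'
    have e5 : 1 / (n : ℝ) * (Real.log (f n) / Real.log 2) =
        ((n : ℝ)⁻¹ * Real.log (f n)) / Real.log 2 := by ring
    rw [Real.logb, e5, div_le_div_iff_of_pos_right hl2, inv_mul_le_iff₀ hnR]
    have e4 : (n : ℝ) * (Real.log 2 - v n + Real.log ((n : ℝ) + 1) / n) =
        n * Real.log 2 - v n * n + Real.log ((n : ℝ) + 1) := by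
      field_simp
    rw [e4, e3]
    linarith

/-- **Main result.**

1. For all fields `F`, all `n` and all `d ≥ 1`: `A(n,d)` is at most the fractional Haemers bound over
`F`, which is at most the Haemers bound over `F`; and with `V = V(n, ⌊(d-1)/2⌋)`, the size of the
balls of radius `⌊(d-1)/2⌋`, the fractional Haemers bound is at least `2^n / (2 (n+1) V)` and the
Haemers bound is at most `n 2^n / V + 1`.

2. For `0 < δ < 1` and all fields the exponents of both bounds for the distance `⌈δ n⌉` are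
`1 - H(δ/2)`. -/
theorem result :
    (∀ (F : Type) [Field F] (n d : ℕ), 1 ≤ d →
      (A n d : ℝ) ≤ fracHaemers F n d ∧ fracHaemers F n d ≤ haemers F n d ∧
      (2 : ℝ) ^ n ≤ 2 * (n + 1) * V n ((d - 1) / 2) * fracHaemers F n d ∧
      (haemers F n d : ℝ) ≤ n * 2 ^ n / V n ((d - 1) / 2) + 1) ∧
    (∀ (F : Type) [Field F] (δ : ℝ), 0 < δ → δ < 1 →
      Tendsto (fun n : ℕ => 1 / (n : ℝ) * Real.logb 2 (fracHaemers F n ⌈δ * n⌉₊)) atTop
        (𝓝 (1 - H (δ / 2))) ∧
      Tendsto (fun n : ℕ => 1 / (n : ℝ) * Real.logb 2 (haemers F n ⌈δ * n⌉₊)) atTop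
        (𝓝 (1 - H (δ / 2)))) := by
  refine ⟨fun F _ n d hd => ⟨A_le F hd, frac_le F hd, frac_ge F hd, haemers_le F hd⟩, ?_⟩
  intro F _ δ h0 h1
  have hd : ∀ n : ℕ, 1 ≤ n → 1 ≤ ⌈δ * (n : ℝ)⌉₊ := by
    intro n hn
    have hnR : (0 : ℝ) < n := by exact_mod_cast hn
    exact Nat.one_le_iff_ne_zero.2 (Nat.ceil_pos.2 (by positivity)).ne'
  constructor
  · exact exponent h0 h1 _ (fun n hn => frac_ge F (hd n hn))
      (fun n hn => (frac_le F (hd n hn)).trans (haemers_le F (hd n hn)))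
  · refine exponent h0 h1 _ (fun n hn => (frac_ge F (hd n hn)).trans ?_)
      (fun n hn => haemers_le F (hd n hn))
    exact mul_le_mul_of_nonneg_left (frac_le F (hd n hn)) (by positivity)

end Pool.Agent.Results.MP_0430e4_lc.RankBounds
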